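import Pool.Agent.Helper73.LF.GoalsB

/-!
# LF-BAD: the good approximations with given exponents lie in finitely many proper subspaces
-/

set_option autoImplicit false

open Finset NumberField

namespace Pool.Agent.Helper57.LF

open Pool.Agent.Helper98.Lang Pool.Agent.Helper92.Ru Pool.Agent.Helper73.LF

/-- the matrix with rows `e_0` and `r_i e_0 - e_(i+1)` -/
def mat {k : Type} [Field k] {m : ℕ} (r : Fin m → k) : Matrix (Fin (m + 1)) (Fin (m + 1)) k :=
  Matrix.of (Fin.cons (Fin.cons 1 (fun _ => 0))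
    (fun i => Fin.cons (r i) (fun j => if j = i then -1 else 0)))

theorem mat_zero {k : Type} [Field k] {m : ℕ} (r : Fin m → k) (y : Fin (m + 1) → k) :
    (mat r).mulVec y 0 = y 0 := by
  simp [mat, Matrix.mulVec, dotProduct, Fin.sum_univ_succ]

theorem mat_succ {k : Type} [Field k] {m : ℕ} (r : Fin m → k) (y : Fin (m + 1) → k) (i : Fin m) :
    (mat r).mulVec y i.succ = r i * y 0 - y i.succ := by
  simp [mat, Matrix.mulVec, dotProduct, Fin.sum_univ_succ, sub_eq_add_neg]

theorem mat_det {k : Type} [Field k] {m : ℕ} (r : Fin m → k) : (mat r).det ≠ 0 := by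
  intro h
  obtain ⟨y, hy0, hy⟩ := Matrix.exists_mulVec_eq_zero_iff.2 h
  apply hy0
  have h0 : y 0 = 0 := by
    rw [← mat_zero r y, hy]
    rfl
  funext i
  refine Fin.cases h0 (fun i => ?_) i
  have h1 := mat_succ r y i
  rw [hy, h0, mul_zero, zero_sub] at h1
  have h2 : (0 : k) = -y i.succ := h1
  rw [zero_eq_neg] at h2
  exact h2

/-- **LF-BAD** -/
theorem bad (h : SSTX) : GBad := by
  classical
  intro m x k _ _ r hr a ha
  let T : Finset (FinitePlace k) := ∅
  let rr : SP k T → Fin m → k := Sum.elim r (fun _ _ => 0)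
  let mm : SP k T → ℕ := Sum.elim (fun v => v.mult) (fun _ => 1)
  let D : ℕ := ∑ v, mm v
  have hm : ∀ v, 1 ≤ mm v := by
    rintro (v | v)
    · exact v.mult_pos
    · exact le_refl 1
  have hD : 1 ≤ D := by
    obtain ⟨v⟩ : Nonempty (InfinitePlace k) := inferInstance
    calc 1 ≤ mm (Sum.inl v) := hm _
      _ ≤ D := Finset.single_le_sum (f := mm) (fun _ _ => Nat.zero_le _) (Finset.mem_univ _)
  have hD0 : (D : ℝ) ≠ 0 := by positivity
  let c : SP k T → Fin (m + 1) → ℝ := fun v => Fin.cons 0 (fun i => (1 + a i) * mm v / D)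
  have hc0 : ∀ v, c v 0 = 0 := fun v => rfl
  have hcs : ∀ v (i : Fin m), c v i.succ = (1 + a i) * mm v / D := fun v i => rfl
  have hc : (((m + 1 : ℕ)) : ℝ) < ∑ v, ∑ i, c v i := by
    have h1 : ∑ v, ∑ i, c v i = (m : ℝ) + ∑ i, a i := by
      have h2 : ∀ v, ∑ i, c v i = ((m : ℝ) + ∑ i, a i) / D * mm v := by
        intro v
        rw [Fin.sum_univ_succ, hc0, zero_add, Finset.sum_congr rfl (fun i _ => hcs v i),
          ← Finset.sum_div, ← Finset.sum_mul, Finset.sum_add_distrib]
        simp only [Finset.sum_const, Finset.card_univ, Fintype.card_fin, nsmul_eq_mul, mul_one]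
        ring
      rw [Finset.sum_congr rfl (fun v _ => h2 v), ← Finset.mul_sum, ← Nat.cast_sum]
      change ((m : ℝ) + ∑ i, a i) / D * (D : ℝ) = (m : ℝ) + ∑ i, a i
      field_simp
    rw [h1]
    push_cast
    linarith
  obtain ⟨H0, F, hF, hS⟩ := h k T (m + 1) (by omega) (fun v => mat (rr v))
    (fun v => mat_det (rr v)) c hc 1 one_pos
  refine ⟨H0, F, hF, fun n hn hnN hnd => ?_⟩
  have hn1 : (1 : ℝ) ≤ n := by exact_mod_cast hn
  have hn0 : (0 : ℝ) < n := by linarith
  refine hS (pt k x n) (fun v => (n : ℝ) ^ mm v)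
    (fun _ => 0) ((n : ℝ) ^ D) (fun v => by positivity) (by simp) (fun _ _ => rfl) ?_ ?_ ?_ ?_
  · intro w _ i
    rw [zpow_zero]
    refine Fin.cases ?_ (fun i => ?_) i
    · exact Helper89Roth.int_le_one w _
    · exact Helper89Roth.int_le_one w _
  · simp only [zpow_zero, finprod_one, mul_one]
    rw [Finset.prod_pow_eq_pow_sum]
  · calc H0 ≤ n := hnN
      _ = (n : ℝ) ^ 1 := (pow_one _).symm
      _ ≤ (n : ℝ) ^ D := pow_le_pow_right₀ hn1 hD
  · rintro (v | v) i
    · have hmv : mm (Sum.inl v) = v.mult := rfl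
      have habs : ∀ y : k, v y = ‖v.embedding y‖ := fun y =>
        (InfinitePlace.norm_embedding_eq v y).symm
      refine Fin.cases ?_ (fun i => ?_) i
      · have h1 : (mat (rr (Sum.inl v))).mulVec (pt k x n) 0 = ((n : ℤ) : k) := by
          rw [mat_zero]
          rfl
        have h2 : v ((n : ℤ) : k) = n := by
          rw [habs, map_intCast]
          simp
        rw [h1, nS_inl, h2, hmv, hc0]
        simp
      · have h1 : (mat (rr (Sum.inl v))).mulVec (pt k x n) i.succ =
            r v i * ((n : ℤ) : k) - ((round ((n : ℝ) * x i) : ℤ) : k) := by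
          rw [mat_succ]
          rfl
        have h2 : v (r v i * ((n : ℤ) : k) - ((round ((n : ℝ) * x i) : ℤ) : k)) =
            nd (n * x i) := by
          rw [habs, map_sub, map_mul, hr, map_intCast, map_intCast, nd]
          have : ((x i : ℝ) : ℂ) * ((n : ℤ) : ℂ) - ((round ((n : ℝ) * x i) : ℤ) : ℂ) =
              (((n : ℝ) * x i - (round ((n : ℝ) * x i) : ℤ) : ℝ) : ℂ) := by
            push_cast
            ring
          rw [this, Complex.norm_real, Real.norm_eq_abs]
        rw [h1, nS_inl, h2, hmv, hcs, hmv]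
        have h4 : ((n : ℝ) ^ D) ^ (-((1 + a i) * v.mult / D)) =
            (n : ℝ) ^ (-((1 + a i) * v.mult)) := by
          rw [← Real.rpow_natCast, ← Real.rpow_mul hn0.le]
          congr 1
          field_simp
        rw [h4, one_mul, ← Real.rpow_natCast (n : ℝ) v.mult, ← Real.rpow_add hn0]
        calc nd (n * x i) ^ v.mult ≤ ((n : ℝ) ^ (-(a i))) ^ v.mult :=
              pow_le_pow_left₀ (abs_nonneg _) (hnd i) _
          _ = (n : ℝ) ^ ((v.mult : ℝ) + -((1 + a i) * v.mult)) := by
              rw [← Real.rpow_natCast, ← Real.rpow_mul hn0.le]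
              congr 1
              ring
    · exact (Finset.notMem_empty _ v.2).elim

end Pool.Agent.Helper57.LF
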