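import Pool.Agent.Helper74.LF.GoalsG
import Pool.Agent.Helper15.AM.All

/-!
# Project LF (MP_cc6379_al), packet GEO3: commuting parabolic subgroups, long tight triples
-/

set_option autoImplicit false

namespace Pool.Agent.Helper57.LF.GEO3

open Pool.Agent.Helper15.RA Pool.Agent.Helper45.AM Pool.Agent.Helper74.LF

section

variable {S W : Type} [Group W] {M : CoxeterMatrix S} {cs : CoxeterSystem M W}

theorem mm (w : W) (i : S) : w * cs.simple i * cs.simple i = w := by
  rw [mul_assoc, cs.simple_mul_simple_self, mul_one]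

theorem par_sim {P : Set S} {i : S} (hi : i ∈ P) : cs.simple i ∈ par cs P :=
  Subgroup.subset_closure ⟨i, hi, rfl⟩

theorem nd {w : W} {i : S} (h : cs.IsRightDescent w i) :
    ¬ cs.IsRightDescent (w * cs.simple i) i := by
  intro h2
  have h3 := cs.isRightDescent_iff.mp h
  have h4 := cs.isRightDescent_iff.mp h2
  rw [mm] at h4
  omega

theorem rd {w : W} {i : S} (h : ¬ cs.IsRightDescent w i) :
    cs.IsRightDescent (w * cs.simple i) i := by
  have h3 := cs.not_isRightDescent_iff.mp h
  rw [cs.isRightDescent_iff, mm]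
  omega

theorem mem_two {P : Set S} {a b : S} (h : cs.length (cs.simple a * cs.simple b) = 2)
    (hm : cs.simple a * cs.simple b ∈ par cs P) : a ∈ P ∧ b ∈ P := by
  obtain ⟨-, hP⟩ := Pool.Agent.Helper15.AM.k_gpb S W M cs
  obtain ⟨h1, -, -, -, h6, -⟩ := hP P
  have := h6 (cs.simple a) (cs.simple b) (by rw [h, cs.length_simple, cs.length_simple]) hm
  exact ⟨h1 a this.1, h1 b this.2⟩

theorem mem_desc {P : Set S} {w : W} {i : S} (hw : w ∈ par cs P)
    (h : cs.IsRightDescent w i) : i ∈ P := by
  obtain ⟨-, hP⟩ := Pool.Agent.Helper15.AM.k_gpb S W M cs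
  exact (hP P).2.1 w hw i h

end

theorem t (hKD1 : KD1) (hKD2 : KD2) (hK1 : K1) (hG : GEO) : Pool.Agent.Helper74.LF.GEO3 := by
  intro S W _ M cs hM I x k y hI hx hk hy hT hk3
  obtain ⟨h1, h2, h3, h4, h5, h6, -, -, -, h10, h11⟩ := hKD2 S W M cs
  obtain ⟨-, -, t3, -⟩ := hK1 S W M cs hM
  have hsymm : ∀ i j, M i j = M j i := fun i j => M.symmetric i j
  have d1 : ∀ i j w, i ≠ j → cs.IsRightDescent w i → cs.IsRightDescent w j →
      cs.IsRightDescent (w * cs.simple i) j := fun i j w hij hi hj =>
    (h1 i j hij (hM.fin i j) w hi hj).2.1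
  have hinj : Function.Injective cs.simple := (Pool.Agent.Helper15.AM.k_gpb S W M cs).1
  have hl2 : ∀ a b, a ≠ b → cs.length (cs.simple a * cs.simple b) = 2 := by
    intro a b hab
    obtain ⟨-, -, -, -, -, -, -, -, h, -⟩ := hKD1 S W M cs a b hab (hM.fin a b)
    exact h
  have hl3 : ∀ a b, a ≠ b → 3 ≤ M a b →
      cs.length (cs.simple a * cs.simple b * cs.simple a) = 3 := by
    intro a b hab
    obtain ⟨-, -, -, -, -, -, -, -, -, h, -⟩ := hKD1 S W M cs a b hab (hM.fin a b)
    exact h
  -- (a)
  have hA : ∀ (n : ℕ) (u : W) (v : S), cs.length u = n → u ∈ par cs I → v ∉ I →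
      cs.IsRightDescent (x * u) v → cs.IsRightDescent x v := by
    intro n
    induction n using Nat.strong_induction_on with
    | _ n ih =>
      intro u v hn hu hv hd
      by_cases hu1 : u = 1
      · rw [hu1, mul_one] at hd
        exact hd
      obtain ⟨e, he⟩ := cs.exists_rightDescent_of_ne_one hu1
      have heI : e ∈ I := mem_desc hu he
      have hev : e ≠ v := fun h => hv (h ▸ heI)
      have h7 : cs.IsRightDescent (x * u) e := (h3 I x u e hx hu heI).2 he
      have h8 := d1 e v (x * u) hev h7 hd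
      rw [mul_assoc] at h8
      have h9 := cs.isRightDescent_iff.1 he
      exact ih (cs.length (u * cs.simple e)) (by omega) (u * cs.simple e) v rfl
        (mul_mem hu (par_sim heI)) hv h8
  -- (b)
  have hk1 : k ≠ 1 := by
    rintro rfl
    rw [cs.length_one] at hk3
    omega
  obtain ⟨b0, hb0⟩ := cs.exists_rightDescent_of_ne_one hk1
  have hb0I : b0 ∈ I := mem_desc hk hb0
  have hlb := cs.isRightDescent_iff.1 hb0
  have hkb : k * cs.simple b0 ∈ par cs I := mul_mem hk (par_sim hb0I)
  have hk2 : k * cs.simple b0 ≠ 1 := by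
    intro h
    rw [h, cs.length_one] at hlb
    omega
  obtain ⟨a0, ha0⟩ := cs.exists_rightDescent_of_ne_one hk2
  have ha0I : a0 ∈ I := mem_desc hkb ha0
  have hla := cs.isRightDescent_iff.1 ha0
  have hab0 : a0 ≠ b0 := by
    rintro rfl
    exact nd hb0 ha0
  have hMab : M a0 b0 = 2 := hI a0 ha0I b0 hb0I hab0
  obtain ⟨k', hk'⟩ : ∃ k' : W, k' = k * cs.simple b0 * cs.simple a0 := ⟨_, rfl⟩
  have hk'I : k' ∈ par cs I := by
    rw [hk']
    exact mul_mem hkb (par_sim ha0I)
  have hkk : k = k' * (cs.simple a0 * cs.simple b0) := by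
    rw [hk', ← mul_assoc, mm, mm]
  have hkk1 : k' * cs.simple a0 = k * cs.simple b0 := by rw [hk', mm]
  have hlk : cs.length k = cs.length k' + 2 := by
    rw [hk']
    omega
  have hk'1 : k' ≠ 1 := by
    intro h
    rw [h, cs.length_one] at hlk
    omega
  have hna : ¬ cs.IsRightDescent k' a0 := by
    rw [hk']
    exact nd ha0
  have hnb : ¬ cs.IsRightDescent k' b0 := by
    intro h
    have h7 := h5 a0 b0 k' hMab hna h
    rw [hkk1] at h7
    exact nd hb0 h7
  -- for both letters of the pair
  have hpair : ∀ e, e ∈ ({a0, b0} : Set S) → e ∈ I ∧ ¬ cs.IsRightDescent k' e := by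
    rintro e (rfl | rfl)
    · exact ⟨ha0I, hna⟩
    · exact ⟨hb0I, hnb⟩
  have hlx : cs.length (x * k') = cs.length x + cs.length k' :=
    (Pool.Agent.Helper15.AM.k_gpa S W M cs I).2.2 x hx k' hk'I
  have hXR : XR cs {a0, b0} (x * k') := by
    intro e he
    rw [← cs.not_isRightDescent_iff]
    intro h
    exact (hpair e he).2 ((h3 I x k' e hx hk'I (hpair e he).1).1 h)
  have hXL : XL cs {a0, b0} y := fun e he => hy e (hpair e he).1
  have hgm : cs.simple a0 * cs.simple b0 ∈ par cs {a0, b0} :=
    mul_mem (par_sim (Or.inl rfl)) (par_sim (Or.inr rfl))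
  have hgl := hl2 a0 b0 hab0
  have hfull : Full cs a0 b0 (cs.simple a0 * cs.simple b0) := by
    obtain ⟨-, -, -, -, h, -⟩ := hKD1 S W M cs a0 b0 hab0 (hM.fin a0 b0)
    exact (h _).2 ⟨hgm, hgl.ge⟩
  have hgeo := (hG S W M cs hM a0 b0 (x * k') (cs.simple a0 * cs.simple b0) y hab0 hXR hfull
    hXL).1
  by_contra hbad
  have hT4 := hgeo (by
    intro h
    apply hbad
    rw [hlk, hkk, ← mul_assoc x k', h, hlx, hgl]
    omega)
  -- `v ∉ I` which commutes with one element of `I` commutes with all
  have hcom : ∀ v e, v ∉ I → e ∈ I → M e v = 2 → ∀ i ∈ I, M v i = 2 := by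
    intro v e hv he hm i hi
    rcases eq_or_ne e i with h | h
    · subst h
      rw [hsymm]
      exact hm
    · exact hM.tr e v i hm (hI e he i hi h) (fun h' => hv (h' ▸ hi))
  rcases hT4 with hT4 | hT4 | hT4 | hT4
  · -- TA
    obtain ⟨a, b, c, hab, hac, hbc, hg, hxc, hyc⟩ := hT4
    have hm := mem_two (hl2 a b hab) (hg ▸ hgm)
    obtain ⟨haI, hnka⟩ := hpair a hm.1
    obtain ⟨hbI, -⟩ := hpair b hm.2
    have hMab' : M a b = 2 := hI a haI b hbI hab
    by_cases hMac : M a c = 2
    · have hMbc : M b c = 2 := hM.tr a b c hMab' hMac hbc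
      have hcI : c ∉ I := by
        intro hcI
        have h7 := (h4 I y (cs.simple b) c hy (par_sim hbI) hcI).1 hyc
        have h8 := cs.isLeftDescent_iff.1 h7
        rw [cs.length_simple] at h8
        have h9 : cs.simple c * cs.simple b = 1 := by
          rw [← cs.length_eq_zero_iff]
          omega
        have h12 : cs.simple c = cs.simple b := by
          rw [← cs.inv_simple b]
          exact eq_inv_of_mul_eq_one_left h9
        exact hbc (hinj h12).symm
      have hTc := hT c hcI (hcom c a hcI haI hMac)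
      have hbL : cs.IsLeftDescent (cs.simple b * y) b := by
        rw [cs.isLeftDescent_iff, cs.simple_mul_simple_cancel_left, hy b hbI]
      have h7 := (h2 b c hbc (hM.fin b c) (cs.simple b * y) hbL hyc).2.1
      rw [cs.simple_mul_simple_cancel_left] at h7
      exact hTc.2 h7
    · obtain ⟨e, he⟩ := cs.exists_rightDescent_of_ne_one hk'1
      have heI : e ∈ I := mem_desc hk'I he
      have hea : a ≠ e := by
        rintro rfl
        exact hnka he
      have hMae : M a e = 2 := hI a haI e heI hea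
      have hce : c ≠ e := by
        rintro rfl
        exact hMac hMae
      have h7 := h5 a e k' hMae hnka he
      have h8 : cs.IsRightDescent (x * k' * cs.simple a) e := by
        rw [mul_assoc]
        exact (h3 I x _ e hx (mul_mem hk'I (par_sim haI)) heI).2 h7
      have h9 : cs.IsRightDescent (x * k' * cs.simple a) a := by
        rw [mul_assoc]
        exact (h3 I x _ a hx (mul_mem hk'I (par_sim haI)) haI).2 (rd hnka)
      exact hMac (t3 _ a c e hac hea hce h9 hxc h8)
  · -- TB
    obtain ⟨a, b, c, hac, hbc, hMab', hg, hxb, hxc, -, -⟩ := hT4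
    have hm := mem_two (hl2 a c hac) (hg ▸ hgm)
    obtain ⟨haI, hnka⟩ := hpair a hm.1
    obtain ⟨hcI, hnkc⟩ := hpair c hm.2
    have hMac : M a c = 2 := hI a haI c hcI hac
    have hMbc : M b c = 2 := hM.tr a b c hMab' hMac hbc
    have hab : a ≠ b := by
      rintro rfl
      rw [M.diagonal] at hMab'
      omega
    by_cases hbI : b ∈ I
    · have hkb' : cs.IsRightDescent k' b := (h3 I x k' b hx hk'I hbI).1 hxb
      have hzI : k' * cs.simple b ∈ par cs I := mul_mem hk'I (par_sim hbI)
      have h7 : cs.IsRightDescent (k' * cs.simple b * cs.simple a) c := by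
        rw [mul_assoc x, mul_assoc x] at hxc
        exact (h3 I x _ c hx (mul_mem hzI (par_sim haI)) hcI).1 hxc
      have hzb : ¬ cs.IsRightDescent (k' * cs.simple b) b := nd hkb'
      have hza : ¬ cs.IsRightDescent (k' * cs.simple b) a := by
        intro h
        have h8 := h5 b a (k' * cs.simple b) (by rw [hsymm]; exact hMab') hzb h
        rw [mm] at h8
        exact hnka h8
      have h8 := d1 a c _ hac (rd hza) h7
      rw [mm] at h8
      have h9 := h5 b c (k' * cs.simple b) hMbc hzb h8
      rw [mm] at h9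
      exact hnkc h9
    · exact (hT b hbI (hcom b a hbI haI hMab')).1 (hA _ k' b rfl hk'I hbI hxb)
  · -- TBm
    obtain ⟨a, b, c, hac, hbc, hMab', hg, hya, -, -, -⟩ := hT4
    have hm := mem_two (hl2 c b hbc.symm) (hg ▸ hgm)
    obtain ⟨hbI, -⟩ := hpair b hm.2
    have haI : a ∉ I := by
      intro haI
      have h7 := hy a haI
      have h8 := cs.isLeftDescent_iff.1 hya
      omega
    exact (hT a haI (hcom a b haI hbI (by rw [hsymm]; exact hMab'))).2 hya
  · -- TC
    obtain ⟨a, b, c, hab, -, hMab', -, hg, -, -⟩ := hT4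
    have h7 := hl3 a b hab (by
      have := hM.big a b hab hMab'
      omega)
    rw [← hg, hgl] at h7
    omega

end Pool.Agent.Helper57.LF.GEO3
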